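import Pool.Agent.Lib.MP_823829_an.SpecB

/-!
Meromorphic maps from the Hartogs figure `H_2^2(r)` into a compact complex manifold that carries a
strictly positive `dd^c`-closed (2,2)-form extend to the polydisc outside a closed set of zero
three-dimensional Hausdorff measure (even of zero `t`-dimensional measure for every `t > 2`).
If the graph is locally irreducible, so is the graph of the extension.
-/

namespace Pool.Agent.Results.MP_823829_an.Extension

open Set Pool.Agent.Lib.MP_823829_an.Spec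
open scoped Manifold

theorem result {m : ℕ} {X : Type*} [TopologicalSpace X] [ChartedSpace (Fin m → ℂ) X]
    [IsManifold 𝓘(ℂ, Fin m → ℂ) 1 X] [CompactSpace X] [T2Space X]
    (Ω : Tensor (Fin m → ℂ) X) (hΩ : IsPosPluriclosed Ω)
    (r : ℝ) (hr0 : 0 < r) (hr1 : r < 1) (Γ : Set (C4 × X))
    (hΓ : IsMeromorphicGraph (Fin m → ℂ) (hartogs r) Γ) :
    ∃ A : Set C4, A ⊆ polydisc \ hartogs r ∧ IsOpen (polydisc \ A) ∧
      (∀ t : ℝ, 2 < t → IsNull t A) ∧
      ∃ Γ' : Set (C4 × X), IsMeromorphicGraph (Fin m → ℂ) (polydisc \ A) Γ' ∧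
        Γ' ∩ hartogs r ×ˢ univ = Γ ∧
        (IsLocallyIrreducible (Fin m → ℂ) Γ → IsLocallyIrreducible (Fin m → ℂ) Γ') :=
  Pool.Agent.Lib.MP_823829_an.main_thm2 _ (Pool.Agent.Lib.MP_823829_an.spec_pos hΩ) hr0 hr1 Γ hΓ

end Pool.Agent.Results.MP_823829_an.Extension
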